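import Mathlib
import Pool.Agent.Y489.EN.Stm

/-!
# Project EN (helper489), job EN-CAP: complements of closed caps are connected
-/

set_option autoImplicit false

open Metric Set
open scoped RealInnerProductSpace

namespace Pool.Agent.Y710.EN

open Pool.Agent.Y320.CM (Sph)
open Pool.Agent.Y489.EN (S_CAP)

theorem arc_ineq {s t A m : ℝ} (hs : s ^ 2 ≤ 1) (ht0 : 0 ≤ t) (ht1 : t ≤ 1)
    (hA : A = (1 - t) * s - t) (hm : 0 ≤ m) (hm2 : m ^ 2 = A ^ 2 + (1 - t) ^ 2 * (1 - s ^ 2)) :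
    A ≤ s * m := by
  rcases le_or_gt 0 s with h | h
  · rcases le_or_gt A 0 with h1 | h1
    · exact h1.trans (mul_nonneg h hm)
    · have h2 : A ≤ s * (1 - t) := by rw [hA]; linarith
      have h3 : A ^ 2 ≤ (s * (1 - t)) ^ 2 := pow_le_pow_left₀ h1.le h2 2
      have h4 : A ^ 2 ≤ (s * m) ^ 2 := by
        have h5 : A ^ 2 * (1 - s ^ 2) ≤ (s * (1 - t)) ^ 2 * (1 - s ^ 2) :=
          mul_le_mul_of_nonneg_right h3 (by linarith)
        have h6 : (s * m) ^ 2 = s ^ 2 * A ^ 2 + (s * (1 - t)) ^ 2 * (1 - s ^ 2) := by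
          rw [mul_pow, hm2]
          ring
        rw [h6]
        nlinarith
      exact (pow_le_pow_iff_left₀ h1.le (mul_nonneg h hm) two_ne_zero).1 h4
  · have h2 : (-s) * (1 - t) ≤ -A := by rw [hA]; linarith
    have h0 : 0 ≤ (-s) * (1 - t) := mul_nonneg (by linarith) (by linarith)
    have h3 : ((-s) * (1 - t)) ^ 2 ≤ (-A) ^ 2 := pow_le_pow_left₀ h0 h2 2
    have h4 : ((-s) * m) ^ 2 ≤ (-A) ^ 2 := by
      have h5 : ((-s) * (1 - t)) ^ 2 * (1 - s ^ 2) ≤ (-A) ^ 2 * (1 - s ^ 2) :=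
        mul_le_mul_of_nonneg_right h3 (by linarith)
      have h6 : ((-s) * m) ^ 2 = s ^ 2 * A ^ 2 + ((-s) * (1 - t)) ^ 2 * (1 - s ^ 2) := by
        rw [mul_pow, hm2]
        ring
      rw [h6]
      nlinarith
    have h7 := (pow_le_pow_iff_left₀ (mul_nonneg (by linarith : (0 : ℝ) ≤ -s) hm)
      (h0.trans h2) two_ne_zero).1 h4
    linarith

theorem t_CAP : S_CAP := by
  intro p d
  by_cases hd : d < 0
  · have h1 : {x : Sph | d < dist p x} = Set.univ :=
      Set.eq_univ_of_forall fun x => hd.trans_le dist_nonneg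
    rw [h1]
    have hr : 1 < Module.rank ℝ (EuclideanSpace ℝ (Fin 3)) := by
      rw [← Module.finrank_eq_rank, finrank_euclideanSpace_fin]
      norm_num
    have hc : IsConnected (sphere (0 : EuclideanSpace ℝ (Fin 3)) 1) :=
      isConnected_sphere hr 0 zero_le_one
    have : PreconnectedSpace Sph := Subtype.preconnectedSpace hc.isPreconnected
    exact isPreconnected_univ
  · rw [not_lt] at hd
    have hp : ‖(p : EuclideanSpace ℝ (Fin 3))‖ = 1 := norm_eq_of_mem_sphere p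
    refine isPreconnected_of_forall (-p) fun x hx => ?_
    have hx1 : ‖(x : EuclideanSpace ℝ (Fin 3))‖ = 1 := norm_eq_of_mem_sphere x
    have hxp : x ≠ p := by
      rintro rfl
      rw [Set.mem_ofPred_eq, dist_self] at hx
      linarith
    let y : ℝ → EuclideanSpace ℝ (Fin 3) := fun t => (1 - t) • (x : EuclideanSpace ℝ (Fin 3)) - t • p
    have hy0 : ∀ t, y t ≠ 0 := by
      intro t h
      have h1 : (1 - t) • (x : EuclideanSpace ℝ (Fin 3)) = t • p := sub_eq_zero.1 h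
      have h2 := congrArg norm h1
      rw [norm_smul, norm_smul, hx1, hp, mul_one, mul_one, Real.norm_eq_abs, Real.norm_eq_abs] at h2
      have h3 : t = 1 / 2 := by
        rcases abs_eq_abs.1 h2 with h4 | h4
        · linarith
        · linarith
      rw [h3] at h1
      have h4 : (1 : ℝ) - 1 / 2 = 1 / 2 := by norm_num
      rw [h4] at h1
      exact hxp (Subtype.ext (smul_right_injective _ (by norm_num : (1 / 2 : ℝ) ≠ 0) h1))
    have hyc : Continuous y := by fun_prop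
    let f : ℝ → Sph := fun t => ⟨‖y t‖⁻¹ • y t, by
      rw [mem_sphere_zero_iff_norm, norm_smul, norm_inv, norm_norm,
        inv_mul_cancel₀ (norm_ne_zero_iff.2 (hy0 t))]⟩
    have hf : Continuous f :=
      ((hyc.norm.inv₀ fun t => norm_ne_zero_iff.2 (hy0 t)).smul hyc).subtype_mk _
    refine ⟨f '' Icc 0 1, ?_, ⟨1, ⟨zero_le_one, le_refl _⟩, ?_⟩, ⟨0, ⟨le_refl _, zero_le_one⟩, ?_⟩,
      isPreconnected_Icc.image f hf.continuousOn⟩
    · rintro _ ⟨t, ⟨ht0, ht1⟩, rfl⟩
      rw [Set.mem_ofPred_eq] at hx ⊢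
      refine hx.trans_le ?_
      have hdist : ∀ a b : Sph, dist a b ^ 2 =
          2 - 2 * ⟪(a : EuclideanSpace ℝ (Fin 3)), (b : EuclideanSpace ℝ (Fin 3))⟫ := by
        intro a b
        have ha : ‖(a : EuclideanSpace ℝ (Fin 3))‖ = 1 := norm_eq_of_mem_sphere a
        have hb : ‖(b : EuclideanSpace ℝ (Fin 3))‖ = 1 := norm_eq_of_mem_sphere b
        rw [Subtype.dist_eq, dist_eq_norm, norm_sub_sq_real, ha, hb]
        ring
      refine (pow_le_pow_iff_left₀ dist_nonneg dist_nonneg two_ne_zero).1 ?_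
      rw [hdist, hdist]
      have hxx : ⟪(x : EuclideanSpace ℝ (Fin 3)), (x : EuclideanSpace ℝ (Fin 3))⟫ = 1 := by
        rw [real_inner_self_eq_norm_sq, hx1, one_pow]
      have hpp : ⟪(p : EuclideanSpace ℝ (Fin 3)), (p : EuclideanSpace ℝ (Fin 3))⟫ = 1 := by
        rw [real_inner_self_eq_norm_sq, hp, one_pow]
      set s := ⟪(p : EuclideanSpace ℝ (Fin 3)), (x : EuclideanSpace ℝ (Fin 3))⟫ with hs
      have hs1 : s ^ 2 ≤ 1 := by
        have h1 := abs_real_inner_le_norm (p : EuclideanSpace ℝ (Fin 3)) x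
        rw [hp, hx1, one_mul, ← hs] at h1
        rw [← sq_abs]
        exact pow_le_one₀ (abs_nonneg _) h1
      have hA : ⟪(p : EuclideanSpace ℝ (Fin 3)), y t⟫ = (1 - t) * s - t := by
        show ⟪(p : EuclideanSpace ℝ (Fin 3)), (1 - t) • (x : EuclideanSpace ℝ (Fin 3)) - t • p⟫ = _
        rw [inner_sub_right, inner_smul_right, inner_smul_right, hpp, ← hs]
        ring
      have hm2 : ‖y t‖ ^ 2 = ((1 - t) * s - t) ^ 2 + (1 - t) ^ 2 * (1 - s ^ 2) := by
        show ‖(1 - t) • (x : EuclideanSpace ℝ (Fin 3)) - t • (p : EuclideanSpace ℝ (Fin 3))‖ ^ 2 = _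
        rw [norm_sub_sq_real, norm_smul, norm_smul, hx1, hp, inner_smul_left, inner_smul_right,
          real_inner_comm, ← hs, Real.norm_eq_abs, Real.norm_eq_abs, mul_one, mul_one, sq_abs,
          sq_abs]
        simp only [conj_trivial]
        ring
      have h1 := arc_ineq hs1 ht0 ht1 rfl (norm_nonneg (y t)) hm2
      have h2 : ⟪(p : EuclideanSpace ℝ (Fin 3)), (f t : EuclideanSpace ℝ (Fin 3))⟫ ≤ s := by
        show ⟪(p : EuclideanSpace ℝ (Fin 3)), ‖y t‖⁻¹ • y t⟫ ≤ s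
        have hpos : 0 < ‖y t‖ := norm_pos_iff.2 (hy0 t)
        rw [inner_smul_right, hA, inv_mul_le_iff₀ hpos, mul_comm ‖y t‖ s]
        exact h1
      linarith
    · apply Subtype.ext
      show ‖y 1‖⁻¹ • y 1 = -(p : EuclideanSpace ℝ (Fin 3))
      have h1 : y 1 = -(p : EuclideanSpace ℝ (Fin 3)) := by
        show (1 - (1 : ℝ)) • (x : EuclideanSpace ℝ (Fin 3)) - (1 : ℝ) • (p : EuclideanSpace ℝ (Fin 3)) = _
        rw [sub_self, zero_smul, one_smul, zero_sub]
      rw [h1, norm_neg, hp, inv_one, one_smul]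
    · apply Subtype.ext
      show ‖y 0‖⁻¹ • y 0 = (x : EuclideanSpace ℝ (Fin 3))
      have h1 : y 0 = (x : EuclideanSpace ℝ (Fin 3)) := by
        show (1 - (0 : ℝ)) • (x : EuclideanSpace ℝ (Fin 3)) - (0 : ℝ) • (p : EuclideanSpace ℝ (Fin 3)) = _
        rw [sub_zero, one_smul, zero_smul, sub_zero]
      rw [h1, hx1, inv_one, one_smul]

end Pool.Agent.Y710.EN
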